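import Pool.Agent.Helper3.DL.Defs

/-!
# DL-8: decoupling in dimension one
-/

namespace Pool.Agent.DL

open MeasureTheory Finset Filter Topology

theorem dec_one_norm_ee (t : ℝ) : ‖ee t‖ = 1 := by
  unfold ee
  have h : (2 * (Real.pi : ℂ) * t * Complex.I) = ((2 * Real.pi * t : ℝ) : ℂ) * Complex.I := by
    push_cast; ring
  rw [h]
  exact Complex.norm_exp_ofReal_mul_I _

theorem dec_one_cont_ee : Continuous ee := by
  unfold ee; fun_prop

theorem dec_one_cont {Ω : Type} [MeasurableSpace Ω] {μ : Measure Ω} {c : Ω → ℂ} {a : Ω → ℝ}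
    (hc : Integrable c μ) (ha : Measurable a) :
    Continuous (fun t : ℝ => ∫ ω, c ω * ee (t * a ω) ∂μ) := by
  refine continuous_of_dominated (bound := fun ω => ‖c ω‖) ?_ ?_ hc.norm ?_
  · intro t
    exact hc.1.mul ((dec_one_cont_ee.measurable.comp (ha.const_mul t)).aestronglyMeasurable)
  · intro t
    filter_upwards with ω
    rw [norm_mul, dec_one_norm_ee, mul_one]
  · filter_upwards with ω
    exact continuous_const.mul (dec_one_cont_ee.comp (by fun_prop))

/-- Fourier transform of the Gaussian -/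
theorem dec_one_gauss {b : ℝ} (hb : 0 < b) (a : ℝ) :
    ‖∫ t : ℝ, ee (t * a) * ((Real.exp (-b * t ^ 2) : ℝ) : ℂ)‖ =
      (Real.pi / b) ^ (1 / 2 : ℝ) * Real.exp (-(Real.pi ^ 2 * a ^ 2 / b)) := by
  have h := fourierIntegral_gaussian (b := (b : ℂ)) (by simpa using hb)
    ((2 * Real.pi * a : ℝ) : ℂ)
  have h1 : (fun t : ℝ => ee (t * a) * ((Real.exp (-b * t ^ 2) : ℝ) : ℂ)) =
      fun x : ℝ => Complex.exp (Complex.I * ((2 * Real.pi * a : ℝ) : ℂ) * x) *
        Complex.exp (-(b : ℂ) * x ^ 2) := by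
    funext t
    unfold ee
    push_cast
    congr 2
    ring
  rw [h1, h, norm_mul]
  congr 1
  · have h2 : ((Real.pi : ℂ) / (b : ℂ)) = ((Real.pi / b : ℝ) : ℂ) := by push_cast; rfl
    rw [h2, Complex.norm_cpow_eq_rpow_re_of_pos (by positivity)]
    norm_num
  · have h3 : (-((2 * Real.pi * a : ℝ) : ℂ) ^ 2 / (4 * (b : ℂ))) =
        ((-(Real.pi ^ 2 * a ^ 2 / b) : ℝ) : ℂ) := by
      push_cast
      field_simp
      ring
    rw [h3, ← Complex.ofReal_exp, Complex.norm_real, Real.norm_of_nonneg (Real.exp_pos _).le]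

/-- an integrable superposition of characters with frequencies away from `0` has integral `0` -/
theorem dec_one_mean {Ω : Type} [MeasurableSpace Ω] {ν : Measure Ω} [IsFiniteMeasure ν]
    {c : Ω → ℂ} {a : Ω → ℝ} (hc : Integrable c ν) (ha : Measurable a) {d : ℝ} (hd : 0 < d)
    (had : ∀ p, d ≤ |a p|) (H : ℝ → ℂ) (hH : ∀ t, H t = ∫ p, c p * ee (t * a p) ∂ν)
    (hint : Integrable H) : ∫ t, H t = 0 := by
  set b : ℕ → ℝ := fun n => ((n : ℝ) + 1)⁻¹ with hb
  have hbpos : ∀ n, 0 < b n := fun n => by positivity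
  have hb0 : Tendsto b atTop (𝓝 0) := by
    have := tendsto_one_div_add_atTop_nhds_zero_nat (𝕜 := ℝ)
    simpa [hb, one_div] using this
  -- the limit
  have h1 : Tendsto (fun n => ∫ t, H t * ((Real.exp (-b n * t ^ 2) : ℝ) : ℂ)) atTop
      (𝓝 (∫ t, H t)) := by
    refine tendsto_integral_of_dominated_convergence (fun t => ‖H t‖) ?_ hint.norm ?_ ?_
    · intro n
      refine hint.1.mul ?_
      have : Continuous (fun t : ℝ => ((Real.exp (-b n * t ^ 2) : ℝ) : ℂ)) := by fun_prop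
      exact this.aestronglyMeasurable
    · intro n
      filter_upwards with t
      rw [norm_mul, Complex.norm_real, Real.norm_of_nonneg (Real.exp_pos _).le]
      have h2 : Real.exp (-b n * t ^ 2) ≤ 1 := by
        rw [Real.exp_le_one_iff]
        have := hbpos n
        nlinarith [sq_nonneg t]
      exact mul_le_of_le_one_right (norm_nonneg _) h2
    · filter_upwards with t
      have h3 : Tendsto (fun n => Real.exp (-b n * t ^ 2)) atTop (𝓝 1) := by
        have h4 : Tendsto (fun n => -b n * t ^ 2) atTop (𝓝 0) := by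
          simpa using (hb0.neg).mul_const (t ^ 2)
        have h4' := (Real.continuous_exp.tendsto 0).comp h4
        rw [Real.exp_zero] at h4'
        exact h4'
      have h5 : Tendsto (fun n => ((Real.exp (-b n * t ^ 2) : ℝ) : ℂ)) atTop (𝓝 1) := by
        have h5' := (Complex.continuous_ofReal.tendsto 1).comp h3
        rw [Complex.ofReal_one] at h5'
        exact h5'
      have h6 := h5.const_mul (H t)
      rw [mul_one] at h6
      exact h6
  -- the bound
  set K : ℝ := ∫ p, ‖c p‖ ∂ν with hK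
  have h2 : ∀ n, ‖∫ t, H t * ((Real.exp (-b n * t ^ 2) : ℝ) : ℂ)‖ ≤
      K * ((Real.pi / b n) ^ (1 / 2 : ℝ) * Real.exp (-(Real.pi ^ 2 * d ^ 2 / b n))) := by
    intro n
    have hbn := hbpos n
    have h3 : ∫ t, H t * ((Real.exp (-b n * t ^ 2) : ℝ) : ℂ) =
        ∫ p, c p * (∫ t : ℝ, ee (t * a p) * ((Real.exp (-b n * t ^ 2) : ℝ) : ℂ)) ∂ν := by
      have h4 : ∀ t : ℝ, H t * ((Real.exp (-b n * t ^ 2) : ℝ) : ℂ) =
          ∫ p, (c p * ee (t * a p)) * ((Real.exp (-b n * t ^ 2) : ℝ) : ℂ) ∂ν := by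
        intro t
        rw [hH t, integral_mul_const]
      simp_rw [h4]
      rw [integral_integral_swap]
      · congr 1
        funext p
        rw [← integral_const_mul]
        congr 1
        funext t
        ring
      · have h5 : Integrable (fun z : ℝ × Ω => ((Real.exp (-b n * z.1 ^ 2) : ℝ) : ℂ) * c z.2)
            (volume.prod ν) :=
          ((integrable_exp_neg_mul_sq hbn).ofReal).mul_prod hc
        refine h5.mono ?_ ?_
        · have h6 : AEStronglyMeasurable (fun z : ℝ × Ω => c z.2) (volume.prod ν) :=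
            hc.1.comp_snd
          have h7 : Measurable (fun z : ℝ × Ω => ee (z.1 * a z.2)) :=
            dec_one_cont_ee.measurable.comp (measurable_fst.mul (ha.comp measurable_snd))
          have h8 : Measurable (fun z : ℝ × Ω => ((Real.exp (-b n * z.1 ^ 2) : ℝ) : ℂ)) := by
            fun_prop
          exact (h6.mul h7.aestronglyMeasurable).mul h8.aestronglyMeasurable
        · filter_upwards with z
          simp only [Function.uncurry, norm_mul, dec_one_norm_ee, mul_one]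
          rw [mul_comm]
    rw [h3]
    refine (norm_integral_le_integral_norm _).trans ?_
    rw [hK, ← integral_mul_const]
    refine integral_mono_of_nonneg ?_ (hc.norm.mul_const _) ?_
    · filter_upwards with p
      exact norm_nonneg _
    · filter_upwards with p
      rw [norm_mul, dec_one_gauss hbn]
      have h9 : d ^ 2 ≤ a p ^ 2 := by
        rw [← sq_abs (a p)]
        exact pow_le_pow_left₀ hd.le (had p) 2
      gcongr
  have h3 : Tendsto (fun n : ℕ => K * ((Real.pi / b n) ^ (1 / 2 : ℝ) *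
      Real.exp (-(Real.pi ^ 2 * d ^ 2 / b n)))) atTop (𝓝 0) := by
    have h4 := tendsto_rpow_mul_exp_neg_mul_atTop_nhds_zero (1 / 2) (Real.pi ^ 2 * d ^ 2)
      (by positivity)
    have h5 : Tendsto (fun n : ℕ => ((n : ℝ) + 1)) atTop atTop :=
      tendsto_natCast_atTop_atTop.atTop_add tendsto_const_nhds
    have h6 := (h4.comp h5).const_mul (K * Real.pi ^ (1 / 2 : ℝ))
    rw [mul_zero] at h6
    refine h6.congr fun n => ?_
    simp only [Function.comp, hb, div_inv_eq_mul]
    rw [Real.mul_rpow Real.pi_pos.le (by positivity)]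
    ring_nf
  have h4 : Tendsto (fun n => ∫ t, H t * ((Real.exp (-b n * t ^ 2) : ℝ) : ℂ)) atTop (𝓝 0) :=
    squeeze_zero_norm h2 h3
  exact tendsto_nhds_unique h1 h4

/-- one-dimensional form of the spectral representation -/
theorem dec_one_rep {U : Set (Fin 1 → ℝ)} {f : (Fin 1 → ℝ) → ℂ} (h : Spec U f) :
    ∃ (Ω : Type) (_ : MeasurableSpace Ω) (μ : Measure Ω) (_ : IsFiniteMeasure μ)
      (c : Ω → ℂ) (a : Ω → ℝ), Integrable c μ ∧ Measurable a ∧ (∀ ω, ∃ ξ ∈ U, a ω = ξ 0) ∧
        ∀ t : ℝ, f (fun _ => t) = ∫ ω, c ω * ee (t * a ω) ∂μ := by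
  obtain ⟨Ω, m, μ, hμ, c, ξ, hc, hξ, hU, hf⟩ := h
  refine ⟨Ω, m, μ, hμ, c, fun ω => ξ ω 0, hc, (measurable_pi_apply 0).comp hξ,
    fun ω => ⟨ξ ω, hU ω, rfl⟩, fun t => ?_⟩
  rw [hf]
  simp [dot]

theorem dec_one_ortho {U V : Set (Fin 1 → ℝ)} {f g : (Fin 1 → ℝ) → ℂ} (hf : Spec U f)
    (hg : Spec V g) {d : ℝ} (hd : 0 < d) (hUV : ∀ ξ ∈ U, ∀ η ∈ V, d ≤ |ξ 0 - η 0|)
    (hint : Integrable fun t : ℝ => f (fun _ => t) * (starRingEnd ℂ) (g (fun _ => t))) :
    ∫ t : ℝ, f (fun _ => t) * (starRingEnd ℂ) (g (fun _ => t)) = 0 := by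
  obtain ⟨Ω, m, μ, hμ, c, a, hc, ha, haU, hf⟩ := dec_one_rep hf
  obtain ⟨Ω', m', μ', hμ', c', a', hc', ha', haV, hg⟩ := dec_one_rep hg
  have hconj : Integrable (fun ω => (starRingEnd ℂ) (c' ω)) μ' :=
    (Complex.conjCLE.integrable_comp_iff (φ := c')).2 hc'
  refine dec_one_mean (ν := μ.prod μ') (c := fun p => c p.1 * (starRingEnd ℂ) (c' p.2))
    (a := fun p => a p.1 - a' p.2) (hc.mul_prod hconj)
    ((ha.comp measurable_fst).sub (ha'.comp measurable_snd)) hd ?_ _ ?_ hint
  · intro p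
    obtain ⟨ξ, hξ, h1⟩ := haU p.1
    obtain ⟨η, hη, h2⟩ := haV p.2
    rw [h1, h2]
    exact hUV ξ hξ η hη
  · intro t
    rw [hf t, hg t, ← integral_conj, ← integral_prod_mul]
    congr 1
    funext p
    have h3 : ee (t * (a p.1 - a' p.2)) =
        ee (t * a p.1) * (starRingEnd ℂ) (ee (t * a' p.2)) := by
      unfold ee
      rw [← Complex.exp_conj, ← Complex.exp_add]
      congr 1
      simp only [map_mul, Complex.conj_I, Complex.conj_ofReal, map_ofNat]
      push_cast
      ring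
    rw [h3, map_mul]
    ring

/-- almost orthogonality -/
theorem dec_one_l2 (m q : ℕ) (F : ℕ → ℝ → ℂ) (hF : ∀ j < m, Continuous (F j))
    (hF2 : ∀ j < m, Integrable fun t => ‖F j t‖ ^ 2)
    (hort : ∀ j < m, ∀ k < m, ¬ (j ≤ k + q ∧ k ≤ j + q) →
      Integrable (fun t => F j t * (starRingEnd ℂ) (F k t)) →
        ∫ t, F j t * (starRingEnd ℂ) (F k t) = 0) :
    Integrable (fun t => ‖∑ j ∈ range m, F j t‖ ^ 2) ∧
    ∫ t, ‖∑ j ∈ range m, F j t‖ ^ 2 ≤ (2 * q + 1) * ∑ j ∈ range m, ∫ t, ‖F j t‖ ^ 2 := by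
  have hamgm : ∀ j k : ℕ, ∀ t, ‖F j t * (starRingEnd ℂ) (F k t)‖ ≤
      (‖F j t‖ ^ 2 + ‖F k t‖ ^ 2) / 2 := by
    intro j k t
    rw [norm_mul, RCLike.norm_conj]
    nlinarith [sq_nonneg (‖F j t‖ - ‖F k t‖)]
  have hI : ∀ j < m, ∀ k < m, Integrable (fun t => F j t * (starRingEnd ℂ) (F k t)) := by
    intro j hj k hk
    refine (((hF2 j hj).add (hF2 k hk)).div_const 2).mono' ?_ ?_
    · exact ((hF j hj).mul (Complex.continuous_conj.comp (hF k hk))).aestronglyMeasurable
    · filter_upwards with t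
      exact hamgm j k t
  have hsq : ∀ t, ((‖∑ j ∈ range m, F j t‖ ^ 2 : ℝ) : ℂ) =
      ∑ j ∈ range m, ∑ k ∈ range m, F j t * (starRingEnd ℂ) (F k t) := by
    intro t
    rw [← Finset.sum_mul_sum, ← map_sum, Complex.mul_conj']
    push_cast
    rfl
  have hsumI : Integrable (fun t => ∑ j ∈ range m, ∑ k ∈ range m,
      F j t * (starRingEnd ℂ) (F k t)) :=
    integrable_finsetSum _ fun j hj => integrable_finsetSum _ fun k hk =>
      hI j (mem_range.1 hj) k (mem_range.1 hk)
  have hint : Integrable (fun t => ‖∑ j ∈ range m, F j t‖ ^ 2) := by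
    have h1 : (fun t => ‖∑ j ∈ range m, F j t‖ ^ 2) =
        fun t => (∑ j ∈ range m, ∑ k ∈ range m, F j t * (starRingEnd ℂ) (F k t)).re := by
      funext t
      rw [← hsq t, Complex.ofReal_re]
    rw [h1]
    exact hsumI.re
  refine ⟨hint, ?_⟩
  set A : ℕ → ℝ := fun j => ∫ t, ‖F j t‖ ^ 2 with hA
  have hA0 : ∀ j, 0 ≤ A j := fun j => integral_nonneg fun t => by positivity
  have h1 : ((∫ t, ‖∑ j ∈ range m, F j t‖ ^ 2 : ℝ) : ℂ) =
      ∑ j ∈ range m, ∑ k ∈ range m, ∫ t, F j t * (starRingEnd ℂ) (F k t) := by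
    rw [← integral_complex_ofReal]
    simp_rw [hsq]
    rw [integral_finsetSum _ fun j hj => integrable_finsetSum _ fun k hk =>
      hI j (mem_range.1 hj) k (mem_range.1 hk)]
    refine sum_congr rfl fun j hj => ?_
    rw [integral_finsetSum _ fun k hk => hI j (mem_range.1 hj) k (mem_range.1 hk)]
  have h2 : ∀ j ∈ range m, ∀ k ∈ range m, ‖∫ t, F j t * (starRingEnd ℂ) (F k t)‖ ≤
      if j ≤ k + q ∧ k ≤ j + q then (A j + A k) / 2 else 0 := by
    intro j hj k hk
    rw [mem_range] at hj hk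
    split_ifs with hjk
    · refine (norm_integral_le_integral_norm _).trans ?_
      have h3 : (A j + A k) / 2 = ∫ t, (‖F j t‖ ^ 2 + ‖F k t‖ ^ 2) / 2 := by
        rw [integral_div, integral_add (hF2 j hj) (hF2 k hk)]
      rw [h3]
      exact integral_mono (hI j hj k hk).norm (((hF2 j hj).add (hF2 k hk)).div_const 2)
        (hamgm j k)
    · rw [hort j hj k hk hjk (hI j hj k hk), norm_zero]
  have hcard : ∀ j, (((range m).filter fun k => j ≤ k + q ∧ k ≤ j + q).card : ℝ) ≤
      2 * q + 1 := by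
    intro j
    have h3 : ((range m).filter fun k => j ≤ k + q ∧ k ≤ j + q) ⊆ Icc (j - q) (j + q) := by
      intro k hk
      rw [mem_filter] at hk
      rw [mem_Icc]
      omega
    have h4 := card_le_card h3
    rw [Nat.card_Icc] at h4
    have h5 : ((range m).filter fun k => j ≤ k + q ∧ k ≤ j + q).card ≤ 2 * q + 1 := by omega
    exact_mod_cast h5
  have hcard' : ∀ k, (((range m).filter fun j => j ≤ k + q ∧ k ≤ j + q).card : ℝ) ≤
      2 * q + 1 := by
    intro k
    refine le_trans (le_of_eq ?_) (hcard k)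
    congr 2
    ext j
    simp only [mem_filter, and_congr_right_iff]
    intro _
    exact and_comm
  have h3 : ∫ t, ‖∑ j ∈ range m, F j t‖ ^ 2 ≤
      ∑ j ∈ range m, ∑ k ∈ range m, if j ≤ k + q ∧ k ≤ j + q then (A j + A k) / 2 else 0 := by
    have h4 : ∫ t, ‖∑ j ∈ range m, F j t‖ ^ 2 =
        ‖((∫ t, ‖∑ j ∈ range m, F j t‖ ^ 2 : ℝ) : ℂ)‖ := by
      rw [Complex.norm_real, Real.norm_of_nonneg (integral_nonneg fun t => by positivity)]
    rw [h4, h1]
    refine (norm_sum_le _ _).trans (sum_le_sum fun j hj => ?_)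
    exact (norm_sum_le _ _).trans (sum_le_sum fun k hk => h2 j hj k hk)
  refine h3.trans ?_
  have h5 : ∑ j ∈ range m, ∑ k ∈ range m,
      (if j ≤ k + q ∧ k ≤ j + q then (A j + A k) / 2 else 0) =
      (∑ j ∈ range m, (((range m).filter fun k => j ≤ k + q ∧ k ≤ j + q).card : ℝ) * (A j / 2)) +
      ∑ k ∈ range m, (((range m).filter fun j => j ≤ k + q ∧ k ≤ j + q).card : ℝ) *
        (A k / 2) := by
    have h6 : ∀ j k : ℕ, (if j ≤ k + q ∧ k ≤ j + q then (A j + A k) / 2 else 0) =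
        (if j ≤ k + q ∧ k ≤ j + q then A j / 2 else 0) +
          (if j ≤ k + q ∧ k ≤ j + q then A k / 2 else 0) := by
      intro j k
      split_ifs
      · ring
      · ring
    simp_rw [h6, sum_add_distrib]
    congr 1
    · refine sum_congr rfl fun j _ => ?_
      rw [← sum_filter, sum_const, nsmul_eq_mul]
    · rw [sum_comm]
      refine sum_congr rfl fun j _ => ?_
      rw [← sum_filter, sum_const, nsmul_eq_mul]
  rw [h5]
  have h7 : ∑ j ∈ range m,
      (((range m).filter fun k => j ≤ k + q ∧ k ≤ j + q).card : ℝ) * (A j / 2) ≤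
      ∑ j ∈ range m, (2 * (q : ℝ) + 1) * (A j / 2) :=
    sum_le_sum fun j _ => mul_le_mul_of_nonneg_right (hcard j) (by have := hA0 j; positivity)
  have h8 : ∑ k ∈ range m,
      (((range m).filter fun j => j ≤ k + q ∧ k ≤ j + q).card : ℝ) * (A k / 2) ≤
      ∑ k ∈ range m, (2 * (q : ℝ) + 1) * (A k / 2) :=
    sum_le_sum fun j _ => mul_le_mul_of_nonneg_right (hcard' j) (by have := hA0 j; positivity)
  refine (add_le_add h7 h8).trans (le_of_eq ?_)
  rw [← mul_sum, ← sum_div]
  ring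

theorem dec_one_NN (f : (Fin 1 → ℝ) → ℂ) (hf : Continuous fun t : ℝ => f fun _ => t) :
    NN 1 f = ∫⁻ t : ℝ, ‖f (fun _ => t)‖ₑ ^ 2 := by
  have h := (volume_preserving_funUnique (Fin 1) ℝ).lintegral_comp
    (f := fun t => ‖f (fun _ => t)‖ₑ ^ 2) (by
      exact (hf.measurable.enorm).pow_const 2)
  rw [← h]
  unfold NN
  simp only [mul_one, Nat.cast_one, div_one, ENNReal.rpow_one]
  congr 1
  funext x
  congr 3
  funext i
  rw [MeasurableEquiv.funUnique_apply]
  congr 1
  exact Subsingleton.elim _ _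

theorem dec_one : DecThm 1 := by
  intro C hC ε hε
  set q : ℕ := ⌈2 * C⌉₊ with hq
  have hqC : 2 * C ≤ q := Nat.le_ceil _
  refine ⟨2 * q + 1, by positivity, fun N => ?_⟩
  have h2N : (1 : ℝ) ≤ 2 ^ (ε * N) := Real.one_le_rpow (by norm_num) (by positivity)
  have htri : tri 1 = 1 := rfl
  unfold DecOn
  rw [htri]
  intro f hf
  set m : ℕ := 2 ^ N with hm
  set ρ : ℝ := 1 / 2 ^ N with hρ
  have hρ0 : 0 < ρ := by positivity
  set F : ℕ → ℝ → ℂ := fun j t => f j (fun _ => t) with hFdef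
  have hcont : ∀ j < m, Continuous (F j) := by
    intro j hj
    obtain ⟨Ω, mΩ, μ, hμ, c, a, hc, ha, haU, hfr⟩ := dec_one_rep (hf j hj)
    have h1 : F j = fun t => ∫ ω, c ω * ee (t * a ω) ∂μ := by
      funext t; exact hfr t
    rw [h1]
    exact dec_one_cont hc ha
  have hcontS : Continuous (fun t => ∑ j ∈ range m, F j t) :=
    continuous_finsetSum _ fun j hj => hcont j (mem_range.1 hj)
  have hNN : ∀ j < m, NN 1 (f j) = ∫⁻ t : ℝ, ‖F j t‖ₑ ^ 2 :=
    fun j hj => dec_one_NN (f j) (hcont j hj)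
  rw [dec_one_NN (fun x => ∑ j ∈ range m, f j x) hcontS]
  by_cases htop : ∃ j < m, NN 1 (f j) = ⊤
  · obtain ⟨j, hj, hjt⟩ := htop
    have h1 : ∑ j ∈ range m, NN 1 (f j) = ⊤ := by
      rw [ENNReal.sum_eq_top]
      exact ⟨j, mem_range.2 hj, hjt⟩
    rw [h1, ENNReal.mul_top]
    · exact le_top
    · rw [Ne, ENNReal.ofReal_eq_zero, not_le]
      positivity
  · push Not at htop
    have hF2 : ∀ j < m, Integrable fun t => ‖F j t‖ ^ 2 := by
      intro j hj
      refine ⟨((hcont j hj).norm.pow 2).aestronglyMeasurable, ?_⟩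
      rw [hasFiniteIntegral_iff_enorm]
      have h1 : ∀ t, ‖‖F j t‖ ^ 2‖ₑ = ‖F j t‖ₑ ^ 2 := by
        intro t
        rw [enorm_pow, enorm_norm]
      simp_rw [h1]
      rw [← hNN j hj]
      exact (htop j hj).lt_top
    have key := dec_one_l2 m q F hcont hF2 ?_
    · have h1 : ∀ (G : ℝ → ℂ), Integrable (fun t => ‖G t‖ ^ 2) →
          ∫⁻ t, ‖G t‖ₑ ^ 2 = ENNReal.ofReal (∫ t, ‖G t‖ ^ 2) := by
        intro G hG
        rw [ofReal_integral_eq_lintegral_ofReal hG (by
          filter_upwards with t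
          positivity)]
        congr 1
        funext t
        rw [ENNReal.ofReal_pow (norm_nonneg _), ofReal_norm]
      rw [h1 _ key.1, sum_congr rfl fun j hj => (hNN j (mem_range.1 hj)).trans
        (h1 _ (hF2 j (mem_range.1 hj))), ← ENNReal.ofReal_sum_of_nonneg
          fun j _ => integral_nonneg fun t => by positivity,
        ← ENNReal.ofReal_mul (by positivity)]
      apply ENNReal.ofReal_le_ofReal
      refine key.2.trans ?_
      have h2 : 0 ≤ ∑ j ∈ range m, ∫ t, ‖F j t‖ ^ 2 :=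
        sum_nonneg fun j _ => integral_nonneg fun t => by positivity
      refine mul_le_mul_of_nonneg_right ?_ h2
      exact le_mul_of_one_le_right (by positivity) h2N
    · -- orthogonality of far pieces
      intro j hj k hk hjk hI
      refine dec_one_ortho (hf j hj) (hf k hk) hρ0 ?_ hI
      rintro _ ⟨lam, hlam, rfl⟩ _ ⟨lam', hlam', rfl⟩
      have hP : ∀ (u : ℝ) (l : Fin 1 → ℝ), P (mom 1) u ρ l 0 = u + ρ * l 0 := by
        intro u l
        simp [P, mom]
      rw [hP, hP]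
      have h1 := abs_le.1 (hlam 0)
      have h2 := abs_le.1 (hlam' 0)
      have h3 : (0 + (j : ℝ) * ρ + ρ * lam 0) - (0 + (k : ℝ) * ρ + ρ * lam' 0) =
          ρ * ((j : ℝ) - k + (lam 0 - lam' 0)) := by ring
      rw [h3, abs_mul, abs_of_pos hρ0]
      have h4 : 1 ≤ |(j : ℝ) - k + (lam 0 - lam' 0)| := by
        rw [le_abs]
        rcases not_and_or.1 hjk with h | h
        · left
          have h5 : k + q + 1 ≤ j := by omega
          have h6 : (k : ℝ) + q + 1 ≤ j := by exact_mod_cast h5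
          linarith [h1.1, h2.2]
        · right
          have h5 : j + q + 1 ≤ k := by omega
          have h6 : (j : ℝ) + q + 1 ≤ k := by exact_mod_cast h5
          linarith [h1.2, h2.1]
      nlinarith
end Pool.Agent.DL
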